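import Pool.Agent.H98.RH.Defs

/-!
# H2 CT, Cnt: lattice terms of bounded depth and exponents

`Td H B d`: the terms of depth at most `d` with all exponents at most `B`. There are at most `(|H| + 2 B + 3) ^ (2 ^ (d + 1))` of
them. `IsT`: the values of these terms.
-/

set_option autoImplicit false

namespace Pool.Agent.H2.CT

open Pool.Agent.H54.TT Pool.Agent.H98.RH

/-- the terms of depth at most `d` with exponents at most `B` -/
def Td (H : Type) (B : ℕ) : ℕ → Set (H98.RH.LT H)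
  | 0 => Set.range H98.RH.LT.sym
  | d + 1 => Set.range H98.RH.LT.sym ∪ (Set.image2 H98.RH.LT.sc {k : ℤ | |k| ≤ B} (Td H B d) ∪
      (Set.image2 H98.RH.LT.sum (Td H B d) (Td H B d) ∪ Set.image2 H98.RH.LT.inf (Td H B d) (Td H B d)))

theorem sym_mem {H : Type} (B d : ℕ) (h : H) : H98.RH.LT.sym h ∈ Td H B d := by
  cases d with
  | zero => exact ⟨h, rfl⟩
  | succ d => exact Or.inl ⟨h, rfl⟩

theorem sc_mem {H : Type} {B d : ℕ} {k : ℤ} {t : H98.RH.LT H} (hk : |k| ≤ B) (ht : t ∈ Td H B d) : H98.RH.LT.sc k t ∈ Td H B (d + 1) :=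
  Or.inr (Or.inl ⟨k, hk, t, ht, rfl⟩)

theorem sum_mem {H : Type} {B d : ℕ} {t t' : H98.RH.LT H} (ht : t ∈ Td H B d) (ht' : t' ∈ Td H B d) :
    H98.RH.LT.sum t t' ∈ Td H B (d + 1) :=
  Or.inr (Or.inr (Or.inl ⟨t, ht, t', ht', rfl⟩))

theorem inf_mem {H : Type} {B d : ℕ} {t t' : H98.RH.LT H} (ht : t ∈ Td H B d) (ht' : t' ∈ Td H B d) :
    H98.RH.LT.inf t t' ∈ Td H B (d + 1) :=
  Or.inr (Or.inr (Or.inr ⟨t, ht, t', ht', rfl⟩))

theorem td_succ {H : Type} (B d : ℕ) : Td H B d ⊆ Td H B (d + 1) := by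
  induction d with
  | zero =>
    rintro _ ⟨h, rfl⟩
    exact sym_mem _ _ h
  | succ d ih =>
    rintro _ (⟨h, rfl⟩ | ⟨k, hk, t, ht, rfl⟩ | ⟨t, ht, t', ht', rfl⟩ | ⟨t, ht, t', ht', rfl⟩)
    · exact sym_mem _ _ h
    · exact sc_mem hk (ih ht)
    · exact sum_mem (ih ht) (ih ht')
    · exact inf_mem (ih ht) (ih ht')

theorem td_mono {H : Type} {B d d' : ℕ} (h : d ≤ d') : Td H B d ⊆ Td H B d' := by
  induction h with
  | refl => exact subset_rfl
  | step _ ih => exact ih.trans (td_succ _ _)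

theorem td_mono_exp {H : Type} {B B' : ℕ} (h : B ≤ B') (d : ℕ) : Td H B d ⊆ Td H B' d := by
  induction d with
  | zero => exact subset_rfl
  | succ d ih =>
    rintro _ (⟨h', rfl⟩ | ⟨k, hk, t, ht, rfl⟩ | ⟨t, ht, t', ht', rfl⟩ | ⟨t, ht, t', ht', rfl⟩)
    · exact sym_mem _ _ h'
    · have h1 : |k| ≤ (B : ℤ) := hk
      exact sc_mem (h1.trans (by exact_mod_cast h)) (ih ht)
    · exact sum_mem (ih ht) (ih ht')
    · exact inf_mem (ih ht) (ih ht')

private theorem card_int (B : ℕ) : {k : ℤ | |k| ≤ B}.Finite ∧ {k : ℤ | |k| ≤ B}.ncard = 2 * B + 1 := by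
  have e : {k : ℤ | |k| ≤ B} = ((Finset.Icc (-(B : ℤ)) B : Finset ℤ) : Set ℤ) := by
    ext k
    rw [Finset.coe_Icc, Set.mem_Icc]
    show |k| ≤ (B : ℤ) ↔ _
    exact abs_le
  rw [e]
  refine ⟨Finset.finite_toSet _, ?_⟩
  rw [Set.ncard_coe_finset, Int.card_Icc]
  omega

/-- Proof. `N (d + 1) ≤ |H| + (2 B + 1) N d + 2 (N d) ^ 2`. -/
theorem td_card (H : Type) [Finite H] (B d : ℕ) :
    (Td H B d).Finite ∧ (Td H B d).ncard ≤ (Nat.card H + 2 * B + 3) ^ (2 ^ (d + 1)) := by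
  obtain ⟨X, hX⟩ : ∃ X : ℕ, X = Nat.card H + 2 * B + 3 := ⟨_, rfl⟩
  have h0 : (Set.range (H98.RH.LT.sym (H := H))).Finite ∧ (Set.range (H98.RH.LT.sym (H := H))).ncard ≤ Nat.card H := by
    refine ⟨Set.finite_range _, ?_⟩
    rw [← Set.image_univ, ← Set.ncard_univ]
    exact Set.ncard_image_le Set.finite_univ
  have hX1 : 1 ≤ X := by omega
  have key : (Td H B d).Finite ∧ (Td H B d).ncard ≤ X ^ (2 ^ (d + 1) - 1) := by
    induction d with
    | zero =>
      refine ⟨h0.1, h0.2.trans ?_⟩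
      have : X ^ (2 ^ (0 + 1) - 1) = X := by norm_num
      rw [this]
      omega
    | succ d ih =>
      obtain ⟨i1, i2⟩ := ih
      have f1 : (Set.image2 H98.RH.LT.sc {k : ℤ | |k| ≤ B} (Td H B d)).Finite := (card_int B).1.image2 _ i1
      have f2 : (Set.image2 H98.RH.LT.sum (Td H B d) (Td H B d)).Finite := i1.image2 _ i1
      have f3 : (Set.image2 H98.RH.LT.inf (Td H B d) (Td H B d)).Finite := i1.image2 _ i1
      have c1 : (Set.image2 H98.RH.LT.sc {k : ℤ | |k| ≤ B} (Td H B d)).ncard ≤ (2 * B + 1) * (Td H B d).ncard := by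
        rw [← Set.image_uncurry_prod]
        refine (Set.ncard_image_le ((card_int B).1.prod i1)).trans ?_
        rw [Set.ncard_prod, (card_int B).2]
      have c2 : ∀ φ : H98.RH.LT H → H98.RH.LT H → H98.RH.LT H, (Set.image2 φ (Td H B d) (Td H B d)).ncard ≤
          (Td H B d).ncard * (Td H B d).ncard := by
        intro φ
        rw [← Set.image_uncurry_prod]
        refine (Set.ncard_image_le (i1.prod i1)).trans ?_
        rw [Set.ncard_prod]
      refine ⟨h0.1.union (f1.union (f2.union f3)), ?_⟩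
      have s1 := Set.ncard_union_le (Set.range (H98.RH.LT.sym (H := H))) (Set.image2 H98.RH.LT.sc {k : ℤ | |k| ≤ B} (Td H B d) ∪
        (Set.image2 H98.RH.LT.sum (Td H B d) (Td H B d) ∪ Set.image2 H98.RH.LT.inf (Td H B d) (Td H B d)))
      have s2 := Set.ncard_union_le (Set.image2 H98.RH.LT.sc {k : ℤ | |k| ≤ B} (Td H B d))
        (Set.image2 H98.RH.LT.sum (Td H B d) (Td H B d) ∪ Set.image2 H98.RH.LT.inf (Td H B d) (Td H B d))
      have s3 := Set.ncard_union_le (Set.image2 H98.RH.LT.sum (Td H B d) (Td H B d)) (Set.image2 H98.RH.LT.inf (Td H B d) (Td H B d))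
      have s4 := c2 H98.RH.LT.sum
      have s5 := c2 H98.RH.LT.inf
      have s6 := h0.2
      obtain ⟨Y, hY⟩ : ∃ Y : ℕ, Y = X ^ (2 ^ (d + 1) - 1) := ⟨_, rfl⟩
      rw [← hY] at i2
      have hY1 : 1 ≤ Y := by
        rw [hY]
        exact Nat.one_le_pow _ _ hX1
      have e : X ^ (2 ^ (d + 1 + 1) - 1) = X * (Y * Y) := by
        rw [hY, ← pow_add, ← pow_succ']
        congr 1
        have h3 : 1 ≤ 2 ^ (d + 1) := Nat.one_le_two_pow
        have h4 : 2 ^ (d + 1 + 1) = 2 * 2 ^ (d + 1) := by ring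
        omega
      have t1 : (Td H B (d + 1)).ncard ≤ Nat.card H + ((2 * B + 1) * Y + (Y * Y + Y * Y)) := by
        have m1 : (2 * B + 1) * (Td H B d).ncard ≤ (2 * B + 1) * Y := Nat.mul_le_mul_left _ i2
        have m2 : (Td H B d).ncard * (Td H B d).ncard ≤ Y * Y := Nat.mul_le_mul i2 i2
        show (Set.range H98.RH.LT.sym ∪ (Set.image2 H98.RH.LT.sc {k : ℤ | |k| ≤ B} (Td H B d) ∪
          (Set.image2 H98.RH.LT.sum (Td H B d) (Td H B d) ∪ Set.image2 H98.RH.LT.inf (Td H B d) (Td H B d)))).ncard ≤ _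
        omega
      refine t1.trans ?_
      rw [e, hX]
      have m3 : Nat.card H ≤ Nat.card H * (Y * Y) := Nat.le_mul_of_pos_right _ (Nat.mul_pos hY1 hY1)
      have m4 : (2 * B + 1) * Y ≤ (2 * B + 1) * (Y * Y) := Nat.mul_le_mul_left _ (Nat.le_mul_of_pos_right _ hY1)
      nlinarith
  refine ⟨key.1, key.2.trans ?_⟩
  rw [hX]
  exact Nat.pow_le_pow_right (by omega) (Nat.sub_le _ _)

section

variable {F : Type} [Field F] {v : F → ℤ} (hv : IsDV v) (π : Fˣ) {n : ℕ} {H : Type} (ρ : H → GL (Fin n) F)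

/-- `Λ` is the value of a term of depth at most `d` with exponents at most `B` -/
def IsT (B d : ℕ) (Λ : Submodule (Ov hv) (Fin n → F)) : Prop := ∃ t ∈ Td H B d, Λ = ev hv π ρ t

variable {hv π ρ}

theorem IsT.mono {B B' d d' : ℕ} (hB : B ≤ B') (hd : d ≤ d') {Λ : Submodule (Ov hv) (Fin n → F)}
    (h : IsT hv π ρ B d Λ) : IsT hv π ρ B' d' Λ := by
  obtain ⟨t, ht, e⟩ := h
  exact ⟨t, td_mono_exp hB _ (td_mono hd ht), e⟩

theorem isT_sym (B d : ℕ) (h : H) : IsT hv π ρ B d (LM hv (ρ h)) := ⟨H98.RH.LT.sym h, sym_mem _ _ _, rfl⟩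

theorem IsT.sup {B d : ℕ} {Λ Λ' : Submodule (Ov hv) (Fin n → F)} (h : IsT hv π ρ B d Λ) (h' : IsT hv π ρ B d Λ') :
    IsT hv π ρ B (d + 1) (Λ ⊔ Λ') := by
  obtain ⟨t, ht, rfl⟩ := h
  obtain ⟨t', ht', rfl⟩ := h'
  exact ⟨H98.RH.LT.sum t t', sum_mem ht ht', rfl⟩

theorem IsT.inf {B d : ℕ} {Λ Λ' : Submodule (Ov hv) (Fin n → F)} (h : IsT hv π ρ B d Λ) (h' : IsT hv π ρ B d Λ') :
    IsT hv π ρ B (d + 1) (Λ ⊓ Λ') := by
  obtain ⟨t, ht, rfl⟩ := h
  obtain ⟨t', ht', rfl⟩ := h'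
  exact ⟨H98.RH.LT.inf t t', inf_mem ht ht', rfl⟩

theorem IsT.sc {B d : ℕ} {k : ℤ} (hk : |k| ≤ B) {Λ : Submodule (Ov hv) (Fin n → F)} (h : IsT hv π ρ B d Λ) :
    IsT hv π ρ B (d + 1)
      (Λ.map (((LinearMap.lsmul F (Fin n → F)) ((π ^ k : Fˣ) : F)).restrictScalars (Ov hv))) := by
  obtain ⟨t, ht, rfl⟩ := h
  exact ⟨H98.RH.LT.sc k t, sc_mem hk ht, rfl⟩

/-- a supremum of at most `m + 1` values of terms -/
theorem IsT.biSup {ι : Type} {B d : ℕ} {N : ι → Submodule (Ov hv) (Fin n → F)} :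
    ∀ (m : ℕ) (s : Finset ι), s.Nonempty → s.card ≤ m + 1 → (∀ i ∈ s, IsT hv π ρ B d (N i)) →
      IsT hv π ρ B (d + m) (⨆ i ∈ s, N i) := by
  classical
  intro m
  induction m with
  | zero =>
    intro s hs hc h
    have h1 : s.card = 1 := le_antisymm hc hs.card_pos
    obtain ⟨i, rfl⟩ := Finset.card_eq_one.1 h1
    rw [Finset.iSup_singleton]
    exact h i (Finset.mem_singleton_self i)
  | succ m ih =>
    intro s hs hc h
    by_cases h1 : s.card ≤ m + 1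
    · exact (ih s hs h1 h).mono le_rfl (by omega)
    · obtain ⟨i, hi⟩ := hs
      have h2 : (s.erase i).card = m + 1 := by
        rw [Finset.card_erase_of_mem hi]
        omega
      have h3 : IsT hv π ρ B (d + m) (⨆ j ∈ s.erase i, N j) :=
        ih _ (Finset.card_pos.1 (by omega)) h2.le fun j hj => h j (Finset.mem_of_mem_erase hj)
      have h4 : (⨆ j ∈ s, N j) = N i ⊔ ⨆ j ∈ s.erase i, N j := by
        conv_lhs => rw [← Finset.insert_erase hi]
        rw [Finset.iSup_insert]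
      rw [h4]
      exact IsT.sup (d := d + m) ((h i hi).mono le_rfl (Nat.le_add_right _ _)) h3

end

end Pool.Agent.H2.CT
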