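import Pool.Agent.H2.CT.Cnt

/-!
# H2 CT, Nak: a finite sum of modules over the valuation ring in `F ^ n` is a sum of at most `n` of them
-/

set_option autoImplicit false

namespace Pool.Agent.H2.CT

open Pool.Agent.H54.TT Pool.Agent.H98.RH

/-- Proof. Take a subset `s'` with the same sum of minimal cardinality and for `i ∈ s'` an element `x i` of `N i` which is not in
the sum `Λ i` of the other modules. The `x i` are linearly independent over `F`: in a relation `∑ c i x i = 0` divide by the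
nonzero coefficient `c i` of smallest valuation, so `x i ∈ Λ i`. -/
theorem exists_small_sum {F : Type} [Field F] {v : F → ℤ} (hv : IsDV v) {n : ℕ} {ι : Type} (s : Finset ι)
    (N : ι → Submodule (Ov hv) (Fin n → F)) :
    ∃ s' ⊆ s, s'.card ≤ n ∧ (⨆ i ∈ s', N i) = ⨆ i ∈ s, N i := by
  classical
  obtain ⟨s', hs', hmin⟩ := Finset.exists_min_image (s.powerset.filter fun t => (⨆ i ∈ t, N i) = ⨆ i ∈ s, N i)
    Finset.card ⟨s, Finset.mem_filter.2 ⟨Finset.mem_powerset_self s, rfl⟩⟩
  rw [Finset.mem_filter, Finset.mem_powerset] at hs'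
  refine ⟨s', hs'.1, ?_, hs'.2⟩
  have h1 : ∀ i ∈ s', ∃ x ∈ N i, x ∉ ⨆ j ∈ s'.erase i, N j := by
    intro i hi
    by_contra hcon
    push Not at hcon
    have h2 : (⨆ j ∈ s', N j) = N i ⊔ ⨆ j ∈ s'.erase i, N j := by
      conv_lhs => rw [← Finset.insert_erase hi]
      rw [Finset.iSup_insert]
    have h3 : (⨆ j ∈ s'.erase i, N j) = ⨆ j ∈ s, N j := by
      rw [← hs'.2, h2]
      exact (sup_eq_right.2 hcon).symm
    have h4 := hmin (s'.erase i) (Finset.mem_filter.2 ⟨Finset.mem_powerset.2 ((Finset.erase_subset _ _).trans hs'.1), h3⟩)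
    have h5 := Finset.card_erase_lt_of_mem hi
    omega
  choose x hx hx' using h1
  have hli : LinearIndependent F (fun i : s' => x i.1 i.2) := by
    rw [Fintype.linearIndependent_iff]
    intro c hc i
    by_contra hci
    obtain ⟨k, hk, hkm⟩ := Finset.exists_min_image (Finset.univ.filter fun j : s' => c j ≠ 0) (fun j => v (c j))
      ⟨i, Finset.mem_filter.2 ⟨Finset.mem_univ i, hci⟩⟩
    have hck : c k ≠ 0 := (Finset.mem_filter.1 hk).2
    have hge : ∀ j, Ge v 0 ((c k)⁻¹ * c j) := by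
      intro j hj
      have hcj : c j ≠ 0 := fun h0 => hj (by rw [h0, mul_zero])
      have h6 := hkm j (Finset.mem_filter.2 ⟨Finset.mem_univ j, hcj⟩)
      rw [hv.mul _ _ (inv_ne_zero hck) hcj, hv.inv hck]
      linarith
    refine hx' k.1 k.2 ?_
    have h7 : x k.1 k.2 = -∑ j ∈ Finset.univ.erase k, ((c k)⁻¹ * c j) • x j.1 j.2 := by
      have h8 : (c k)⁻¹ • ∑ j : s', c j • x j.1 j.2 = 0 := by rw [hc, smul_zero]
      rw [Finset.smul_sum, ← Finset.add_sum_erase _ _ (Finset.mem_univ k)] at h8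
      rw [smul_smul, inv_mul_cancel₀ hck, one_smul] at h8
      rw [eq_neg_iff_add_eq_zero, ← h8]
      congr 1
      exact Finset.sum_congr rfl fun j _ => (smul_smul _ _ _).symm
    rw [h7]
    refine Submodule.neg_mem _ (Submodule.sum_mem _ fun j hj => ?_)
    have h9 : x j.1 j.2 ∈ ⨆ j ∈ s'.erase k.1, N j := by
      have h10 : j.1 ∈ s'.erase k.1 := Finset.mem_erase.2 ⟨fun h => Finset.ne_of_mem_erase hj (Subtype.ext h), j.2⟩
      exact (le_iSup₂ (f := fun i (_ : i ∈ s'.erase k.1) => N i) j.1 h10) (hx j.1 j.2)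
    exact Submodule.smul_mem _ (⟨(c k)⁻¹ * c j, hge j⟩ : Ov hv) h9
  have h2 := hli.fintype_card_le_finrank
  rw [Module.finrank_fin_fun, Fintype.card_coe] at h2
  exact h2

/-- a finite sum of values of terms is the value of a term of depth only `n` more -/
theorem IsT.bigSup {F : Type} [Field F] {v : F → ℤ} {hv : IsDV v} {π : Fˣ} {n : ℕ} {H : Type} {ρ : H → GL (Fin n) F}
    {ι : Type} {B d : ℕ} {N : ι → Submodule (Ov hv) (Fin n → F)} (s : Finset ι) (hs : s.Nonempty)
    (h : ∀ i ∈ s, IsT hv π ρ B d (N i)) : IsT hv π ρ B (d + n) (⨆ i ∈ s, N i) := by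
  classical
  obtain ⟨s', h1, h2, h3⟩ := exists_small_sum hv s N
  rw [← h3]
  rcases s'.eq_empty_or_nonempty with he | hne
  · obtain ⟨i, hi⟩ := hs
    have h4 : (⨆ i ∈ s', N i) = N i := by
      refine le_antisymm ?_ ?_
      · rw [he]
        simp
      · rw [h3]
        exact le_iSup₂ (f := fun i (_ : i ∈ s) => N i) i hi
    rw [h4]
    exact (h i hi).mono le_rfl (Nat.le_add_right _ _)
  · exact IsT.biSup n s' hne (by omega) fun i hi => h i (h1 hi)

end Pool.Agent.H2.CT
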